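import Pool.Agent.Helper17.Rg.Goals

/-!
# Packet RG-MEAS (MP_70814c_an)
-/

set_option autoImplicit false

namespace Pool.Agent.Helper59.Rg

open MeasureTheory Pool.Agent.Helper17.Rg Pool.Agent.Helper66.Rig

theorem int_pow (σ : Measure ℂ) [IsProbabilityMeasure σ] (hz : ∀ᵐ z ∂σ, ‖z‖ = 1) (n : ℕ) :
    Integrable (fun z : ℂ => z ^ n) σ := by
  refine Integrable.of_bound (C := 1) (continuous_pow n).aestronglyMeasurable ?_
  filter_upwards [hz] with z h
  rw [norm_pow, h, one_pow]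

theorem fc_re (σ : Measure ℂ) [IsProbabilityMeasure σ] (hz : ∀ᵐ z ∂σ, ‖z‖ = 1) (n : ℕ) :
    (fc σ n).re = ∫ z, (z ^ n).re ∂σ := by
  unfold fc
  exact (integral_re (𝕜 := ℂ) (int_pow σ hz n)).symm

theorem int_re (σ : Measure ℂ) [IsProbabilityMeasure σ] (hz : ∀ᵐ z ∂σ, ‖z‖ = 1) (n : ℕ) :
    Integrable (fun z : ℂ => 1 - (z ^ n).re) σ :=
  (integrable_const 1).sub (int_pow σ hz n).re

theorem one_sub_fc (σ : Measure ℂ) [IsProbabilityMeasure σ] (hz : ∀ᵐ z ∂σ, ‖z‖ = 1) (n : ℕ) :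
    1 - (fc σ n).re = ∫ z, (1 - (z ^ n).re) ∂σ := by
  have h1 : Integrable (fun z : ℂ => (z ^ n).re) σ := (int_pow σ hz n).re
  rw [fc_re σ hz n, integral_sub (integrable_const 1) h1]
  simp

theorem pow_re {z : ℂ} (h : ‖z‖ = 1) (n : ℕ) : (z ^ n).re = Real.cos (n * Complex.arg z) := by
  have h1 : z = Complex.exp (((Complex.arg z : ℝ) : ℂ) * Complex.I) := by
    have := Complex.norm_mul_exp_arg_mul_I z
    rw [h, Complex.ofReal_one, one_mul] at this
    exact this.symm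
  have h2 : z ^ n = Complex.exp (((n * Complex.arg z : ℝ) : ℂ) * Complex.I) := by
    conv_lhs => rw [h1]
    rw [← Complex.exp_nat_mul]
    congr 1
    push_cast
    ring
  rw [h2, Complex.exp_ofReal_mul_I_re]

theorem meas (h : PtSum) : Meas := by
  intro C M hC
  obtain ⟨N0, hN0⟩ := h C M hC
  refine ⟨N0, fun N hN σ hσ hz => ?_⟩
  rw [one_sub_fc σ hz 1]
  simp only [one_sub_fc σ hz]
  rw [← integral_const_mul, ← integral_finsetSum _ (fun k _ => int_re σ hz (2 ^ k + 3 ^ k))]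
  refine integral_mono_ae ((int_re σ hz 1).const_mul M)
    (integrable_finsetSum _ fun k _ => int_re σ hz (2 ^ k + 3 ^ k)) ?_
  filter_upwards [hz] with z h1
  have hpi := Real.pi_pos
  have h2 := hN0 N hN (Complex.arg z / (2 * Real.pi))
  have e1 : 2 * Real.pi * (Complex.arg z / (2 * Real.pi)) = Complex.arg z := by field_simp
  have e2 : ∀ k : ℕ, 2 * Real.pi * ((2 ^ k + 3 ^ k) * (Complex.arg z / (2 * Real.pi))) =
      ((2 ^ k + 3 ^ k : ℕ) : ℝ) * Complex.arg z := by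
    intro k
    push_cast
    field_simp
  simp only [e2] at h2
  rw [e1] at h2
  show M * (1 - (z ^ 1).re) ≤ ∑ k ∈ Finset.Icc N ⌊C * N⌋₊, (1 - (z ^ (2 ^ k + 3 ^ k)).re)
  simp only [pow_re h1]
  rw [Nat.cast_one, one_mul]
  exact h2

end Pool.Agent.Helper59.Rg
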